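import Pool.Agent.N819.Count

/-!
# The weak Goldfeld conjecture fails for odd Hecke–Maass forms of level one

There are cuspidal automorphic representations of `PGL₂` over `ℚ`, namely those of the odd
Hecke–Maass cusp forms for `SL₂(ℤ)`, all of whose twists by quadratic characters have central value
`0`.  For them `N_π(x) = 0` for all `x`.
-/

set_option autoImplicit false

open Filter Topology Pool.Agent.N819

namespace Pool.Agent.Results.MP_5f72fe_nt.OddMaass

/-- `N_π(x)`, the number of quadratic extensions `E / ℚ` with `|Δ_E| < x` and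
`L(1/2, π ⊗ η_E) ≠ 0` -/
noncomputable def Nnv (π : HeckeMaassForm) (x : ℝ) : ℕ := (NonvanishLT π x).ncard

/-- There is an odd Hecke–Maass cusp form `π` for `SL₂(ℤ)`, and for every such `π`: each twist
`π ⊗ η_E` by a quadratic extension `E` has a unique entire `L`-function, and it vanishes at `1/2`;
so `N_π(x) = 0` for all `x` (a count of a subset of a finite set), and there is no `c > 0` with
`N_π(x) ≥ c x` for all sufficiently large `x`. -/
theorem result : (∃ π : HeckeMaassForm, π.Odd) ∧ ∀ π : HeckeMaassForm, π.Odd →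
    (∀ E ∈ QuadExt, ∃ L : ℂ → ℂ, IsTwistedL π E.2 L ∧ L (1 / 2) = 0 ∧
      ∀ L' : ℂ → ℂ, IsTwistedL π E.2 L' → L' = L) ∧
    (∀ x : ℝ, (QuadExtLT x).Finite) ∧ (∀ x : ℝ, Nnv π x = 0) ∧
    ¬ ∃ c : ℝ, 0 < c ∧ ∀ᶠ x : ℝ in atTop, c * x ≤ Nnv π x := by
  refine ⟨exists_odd, fun π hπ => ?_⟩
  have h0 : ∀ x : ℝ, Nnv π x = 0 := fun x => by
    unfold Nnv
    rw [nonvanishLT_eq_empty hπ x, Set.ncard_empty]
  refine ⟨fun E hE => ?_, finite_quadExtLT, h0, ?_⟩
  · obtain ⟨L, hL, hL0⟩ := exists_twistedL π hπ E.2 hE.1 hE.2.1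
    exact ⟨L, hL, hL0, fun L' hL' => hL'.unique hL⟩
  · rintro ⟨c, hc, h⟩
    obtain ⟨x, hx1, hx2⟩ := (h.and (eventually_gt_atTop 0)).exists
    rw [h0, Nat.cast_zero] at hx1
    have : 0 < c * x := mul_pos hc hx2
    linarith

end Pool.Agent.Results.MP_5f72fe_nt.OddMaass
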